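import Pool.Agent.Y980.SF.Cnt

/-!
Project SF (helper859), part VAR (helper980): variance by the large sieve.
-/

set_option autoImplicit false

namespace Pool.Agent.Y980.SF

open Finset Pool.Agent.Y859.SF

/-- `exp (2 pi i x)` -/
noncomputable def ee (x : ℝ) : ℂ := Complex.exp (2 * Real.pi * (x : ℂ) * Complex.I)

lemma ee_add (x y : ℝ) : ee (x + y) = ee x * ee y := by
  unfold ee
  rw [← Complex.exp_add]
  congr 1
  push_cast
  ring

lemma ee_zero : ee 0 = 1 := by
  unfold ee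
  simp

lemma ee_int (n : ℤ) : ee n = 1 := by
  unfold ee
  rw [← Complex.exp_int_mul_two_pi_mul_I n]
  congr 1
  push_cast
  ring

lemma norm_ee (x : ℝ) : ‖ee x‖ = 1 := by
  unfold ee
  rw [show (2 * Real.pi * (x : ℂ) * Complex.I) = ((2 * Real.pi * x : ℝ) : ℂ) * Complex.I by
    push_cast; ring]
  exact Complex.norm_exp_ofReal_mul_I _

lemma conj_ee (x : ℝ) : (starRingEnd ℂ) (ee x) = ee (-x) := by
  unfold ee
  rw [← Complex.exp_conj, show (2 * Real.pi * (x : ℂ) * Complex.I) =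
    ((2 * Real.pi * x : ℝ) : ℂ) * Complex.I by push_cast; ring, map_mul, Complex.conj_ofReal,
    Complex.conj_I]
  congr 1
  push_cast
  ring

lemma ee_nat_mul (a : ℕ) (x : ℝ) : ee (a * x) = ee x ^ a := by
  induction a with
  | zero => simp [ee_zero]
  | succ a ih =>
    rw [pow_succ, ← ih, ← ee_add]
    congr 1
    push_cast
    ring

lemma ee_eq_one {x : ℝ} (h : ee x = 1) : ∃ n : ℤ, x = n := by
  unfold ee at h
  rw [Complex.exp_eq_one_iff] at h
  obtain ⟨n, hn⟩ := h
  refine ⟨n, ?_⟩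
  have h1 : (2 * Real.pi * Complex.I : ℂ) ≠ 0 := Complex.two_pi_I_ne_zero
  have h2 : (x : ℂ) * (2 * Real.pi * Complex.I) = n * (2 * Real.pi * Complex.I) := by
    rw [← hn]
    ring
  have h3 := mul_right_cancel₀ h1 h2
  exact_mod_cast h3

lemma orth (q : ℕ) (hq : 0 < q) (m : ℤ) :
    ∑ a ∈ range q, ee ((a : ℝ) * ((m : ℝ) / q)) = if (q : ℤ) ∣ m then (q : ℂ) else 0 := by
  have hqR : (q : ℝ) ≠ 0 := by positivity
  split_ifs with h
  · obtain ⟨k, rfl⟩ := h
    have : ∀ a ∈ range q, ee ((a : ℝ) * (((q * k : ℤ) : ℝ) / q)) = 1 := by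
      intro a _
      have e : (a : ℝ) * (((q * k : ℤ) : ℝ) / q) = ((a * k : ℤ) : ℝ) := by
        push_cast
        field_simp
      rw [e, ee_int]
    rw [Finset.sum_congr rfl this]
    simp
  · have h1 : ∀ a ∈ range q, ee ((a : ℝ) * ((m : ℝ) / q)) = ee ((m : ℝ) / q) ^ a :=
      fun a _ => ee_nat_mul a _
    rw [Finset.sum_congr rfl h1]
    have h2 : ee ((m : ℝ) / q) ≠ 1 := by
      intro h3
      obtain ⟨n, hn⟩ := ee_eq_one h3
      apply h
      refine ⟨n, ?_⟩
      have : (m : ℝ) = ((q * n : ℤ) : ℝ) := by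
        push_cast
        rw [div_eq_iff hqR] at hn
        linarith
      exact_mod_cast this
    have h3 := geom_sum_mul (ee ((m : ℝ) / q)) q
    have h4 : ee ((m : ℝ) / q) ^ q = 1 := by
      rw [← ee_nat_mul]
      have : (q : ℝ) * ((m : ℝ) / q) = m := by field_simp
      rw [this, ee_int]
    rw [h4, sub_self] at h3
    exact (mul_eq_zero.mp h3).resolve_right (sub_ne_zero.mpr h2)

/-- sum over a residue class -/
def Zh (D : ℕ → ℝ) (N q h : ℕ) : ℝ := ∑ M ∈ range N, if M % q = h then D M else 0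

lemma pars (D : ℕ → ℝ) (N q : ℕ) (hq : 0 < q) :
    ∑ a ∈ range q, ‖∑ M ∈ range N, (D M : ℂ) * ee (M * a / q)‖ ^ 2 =
      q * ∑ h ∈ range q, Zh D N q h ^ 2 := by
  have hqR : (q : ℝ) ≠ 0 := by positivity
  have h1 : ∑ h ∈ range q, Zh D N q h ^ 2 =
      ∑ M ∈ range N, ∑ M' ∈ range N, if M % q = M' % q then D M * D M' else 0 := by
    unfold Zh
    simp only [sq, Finset.sum_mul_sum]
    rw [Finset.sum_comm]
    refine Finset.sum_congr rfl fun M _ => ?_
    rw [Finset.sum_comm]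
    refine Finset.sum_congr rfl fun M' _ => ?_
    rw [Finset.sum_eq_single (M % q)]
    · by_cases h : M % q = M' % q
      · rw [if_pos rfl, if_pos h.symm, if_pos h]
      · rw [if_pos rfl, if_neg (fun hh => h hh.symm), if_neg h, mul_zero]
    · intro h _ hne
      rw [if_neg (fun hh => hne hh.symm), zero_mul]
    · intro hh
      exact absurd (mem_range.mpr (Nat.mod_lt _ hq)) hh
  have key : ((∑ a ∈ range q, ‖∑ M ∈ range N, (D M : ℂ) * ee (M * a / q)‖ ^ 2 : ℝ) : ℂ) =
      ((q * ∑ h ∈ range q, Zh D N q h ^ 2 : ℝ) : ℂ) := by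
    rw [h1]
    push_cast
    have h2 : ∀ a ∈ range q, ((‖∑ M ∈ range N, (D M : ℂ) * ee (M * a / q)‖ : ℂ)) ^ 2 =
        ∑ M ∈ range N, ∑ M' ∈ range N, (D M : ℂ) * (D M' : ℂ) *
          ee ((a : ℝ) * ((((M : ℤ) - (M' : ℤ) : ℤ) : ℝ) / q)) := by
      intro a _
      rw [← Complex.mul_conj', map_sum, Finset.sum_mul_sum]
      refine Finset.sum_congr rfl fun M _ => Finset.sum_congr rfl fun M' _ => ?_
      rw [map_mul, Complex.conj_ofReal, conj_ee, mul_mul_mul_comm, ← ee_add]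
      congr 2
      push_cast
      ring
    rw [Finset.sum_congr rfl h2, Finset.sum_comm, Finset.mul_sum]
    refine Finset.sum_congr rfl fun M _ => ?_
    rw [Finset.sum_comm, Finset.mul_sum]
    refine Finset.sum_congr rfl fun M' _ => ?_
    rw [← Finset.mul_sum, orth q hq]
    have h3 : ((q : ℤ) ∣ (M : ℤ) - (M' : ℤ)) ↔ M % q = M' % q := by
      rw [← Int.modEq_iff_dvd]
      constructor
      · intro h
        have h4 : M' ≡ M [MOD q] := by exact_mod_cast h
        exact h4.symm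
      · intro h
        have h4 : M' ≡ M [MOD q] := h.symm
        exact_mod_cast h4
    by_cases h : M % q = M' % q
    · rw [if_pos (h3.mpr h), if_pos h]
      push_cast
      ring
    · rw [if_neg (fun hh => h (h3.mp hh)), if_neg h]
      push_cast
      ring
  exact_mod_cast key

lemma sum_Zh (D : ℕ → ℝ) (N q : ℕ) (hq : 0 < q) :
    ∑ h ∈ range q, Zh D N q h = ∑ M ∈ range N, D M := by
  unfold Zh
  rw [Finset.sum_comm]
  refine Finset.sum_congr rfl fun M _ => ?_
  rw [Finset.sum_ite_eq, if_pos (mem_range.mpr (Nat.mod_lt _ hq))]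

lemma cnt_shift (e J q M : ℕ) :
    cnt e J q M = ((Ioc 0 J).filter (fun i => q ∣ 6 * (M + i) + e)).card := by
  unfold cnt
  symm
  refine Finset.card_nbij' (fun i => M + i) (fun k => k - M) ?_ ?_ ?_ ?_
  · intro i hi
    simp only [coe_filter, mem_Ioc, Set.mem_ofPred_eq] at hi ⊢
    exact ⟨⟨by omega, by omega⟩, hi.2⟩
  · intro k hk
    simp only [coe_filter, mem_Ioc, Set.mem_ofPred_eq] at hk ⊢
    refine ⟨⟨by omega, by omega⟩, ?_⟩
    rw [show M + (k - M) = k by omega]
    exact hk.2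
  · intro i _
    simp
  · intro k hk
    simp only [coe_filter, mem_Ioc, Set.mem_ofPred_eq] at hk
    show M + (k - M) = k
    omega

lemma cnt_mod (e J q M : ℕ) : cnt e J q M = cnt e J q (M % q) := by
  rw [cnt_shift, cnt_shift]
  congr 1
  refine Finset.filter_congr fun i _ => ?_
  have h : M + i ≡ M % q + i [MOD q] := (Nat.mod_modEq M q).symm.add_right i
  exact ⟨fun hh => dvd_of_modEq hh h, fun hh => dvd_of_modEq hh h.symm⟩

lemma one_sol (e q i : ℕ) (hq : 0 < q) (h6 : Nat.Coprime q 6) :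
    ((range q).filter (fun h => q ∣ 6 * (h + i) + e)).card = 1 := by
  have hinj : Set.InjOn (fun h => (6 * (h + i) + e) % q) (range q : Set ℕ) := by
    intro a ha b hb hab
    simp only [coe_range, Set.mem_Iio] at ha hb
    have h1 : 6 * (a + i) + e ≡ 6 * (b + i) + e [MOD q] := hab
    have h3 : 6 * (a + i) ≡ 6 * (b + i) [MOD q] := Nat.ModEq.add_right_cancel' e h1
    have h4 : a + i ≡ b + i [MOD q] := Nat.ModEq.cancel_left_of_coprime h6 h3
    have h5 : a ≡ b [MOD q] := Nat.ModEq.add_right_cancel' i h4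
    exact Nat.ModEq.eq_of_lt_of_lt h5 ha hb
  have himg : (range q).image (fun h => (6 * (h + i) + e) % q) = range q := by
    refine Finset.eq_of_subset_of_card_le ?_ ?_
    · intro x hx
      rw [mem_image] at hx
      obtain ⟨a, -, rfl⟩ := hx
      exact mem_range.mpr (Nat.mod_lt _ hq)
    · rw [card_image_of_injOn hinj]
  have h0 : 0 ∈ (range q).image (fun h => (6 * (h + i) + e) % q) := by
    rw [himg]
    exact mem_range.mpr hq
  rw [mem_image] at h0
  obtain ⟨a, ha, ha0⟩ := h0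
  rw [card_eq_one]
  refine ⟨a, ?_⟩
  ext b
  rw [mem_filter, mem_singleton]
  constructor
  · rintro ⟨hb, hd⟩
    refine hinj (by simpa using hb) (by simpa using ha) ?_
    show (6 * (b + i) + e) % q = (6 * (a + i) + e) % q
    rw [ha0, Nat.mod_eq_zero_of_dvd hd]
  · rintro rfl
    exact ⟨ha, Nat.dvd_of_mod_eq_zero ha0⟩

lemma cnt_sum (e J q : ℕ) (hq : 0 < q) (h6 : Nat.Coprime q 6) :
    ∑ h ∈ range q, (cnt e J q h : ℝ) = J := by
  have h1 : ∑ h ∈ range q, cnt e J q h = J := by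
    simp only [cnt_shift, card_filter]
    rw [Finset.sum_comm]
    simp only [← card_filter, one_sol e q _ hq h6]
    simp
  exact_mod_cast h1

/-- deviation -/
noncomputable def dl (e J q M : ℕ) : ℝ := (cnt e J q M : ℝ) - J / q

lemma dl_sum (e J q : ℕ) (hq : 0 < q) (h6 : Nat.Coprime q 6) :
    ∑ h ∈ range q, dl e J q h = 0 := by
  unfold dl
  rw [Finset.sum_sub_distrib, cnt_sum e J q hq h6, Finset.sum_const, card_range, nsmul_eq_mul]
  have : (q : ℝ) ≠ 0 := by positivity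
  field_simp
  ring

lemma dl_sq (e J q : ℕ) (hq : 0 < q) (h6 : Nat.Coprime q 6) :
    ∑ h ∈ range q, dl e J q h ^ 2 ≤ J := by
  have hqR : (0 : ℝ) < q := by exact_mod_cast hq
  have h1 : ∀ h ∈ range q, dl e J q h ^ 2 ≤
      (1 - (J : ℝ) / q) * (cnt e J q h : ℝ) + ((J : ℝ) / q) ^ 2 := by
    intro h _
    have h2 := cnt_le e J q h hq h6
    have h3 : (0 : ℝ) ≤ (cnt e J q h : ℝ) := by positivity
    unfold dl
    nlinarith [mul_nonneg h3 (sub_nonneg.mpr h2)]
  refine (Finset.sum_le_sum h1).trans (le_of_eq ?_)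
  rw [Finset.sum_add_distrib, ← Finset.mul_sum, cnt_sum e J q hq h6, Finset.sum_const, card_range,
    nsmul_eq_mul]
  field_simp
  ring

lemma sum_Icc_one {β : Type*} [AddCommMonoid β] (g : ℕ → β) (N : ℕ) :
    ∑ n ∈ Icc 1 N, g n = ∑ M ∈ range N, g (M + 1) := by
  induction N with
  | zero => simp
  | succ n ih => rw [Finset.sum_Icc_succ_top (by omega), ih, sum_range_succ]

lemma PQ_prop {Q q : ℕ} (h : q ∈ PQ Q) : q.Prime ∧ 5 ≤ q ∧ q ≤ Q ∧ Nat.Coprime q 6 := by
  unfold PQ at h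
  rw [mem_filter, mem_Icc] at h
  obtain ⟨⟨h1, h2⟩, hp⟩ := h
  refine ⟨hp, h1, h2, ?_⟩
  rw [Nat.Prime.coprime_iff_not_dvd hp]
  intro hd
  have : q ≤ 6 := Nat.le_of_dvd (by norm_num) hd
  interval_cases q
  · omega
  · exact absurd hp (by norm_num)

/-- the large sieve bound for the sums over residue classes -/
lemma ls_bound (hl : S_LS) (D : ℕ → ℝ) (N Q : ℕ) :
    ∑ q ∈ PQ Q, ∑ h ∈ range q, (q : ℝ) * (Zh D N q h - (∑ M ∈ range N, D M) / q) ^ 2 ≤
      6 * (N + (Q : ℝ) ^ 2) * ∑ M ∈ range N, D M ^ 2 := by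
  set T : ℝ := ∑ M ∈ range N, D M with hT
  have hLS := hl N Q (fun n => (D (n - 1) : ℂ))
  have hL1 : ∑ n ∈ Icc 1 N, ‖(D (n - 1) : ℂ)‖ ^ 2 = ∑ M ∈ range N, D M ^ 2 := by
    rw [sum_Icc_one]
    refine Finset.sum_congr rfl fun M _ => ?_
    rw [Nat.add_sub_cancel, Complex.norm_real, Real.norm_eq_abs, sq_abs]
  rw [hL1] at hLS
  refine le_trans ?_ hLS
  have hin : ∀ f a : ℕ, ‖∑ n ∈ Icc 1 N, (D (n - 1) : ℂ) *
      Complex.exp (2 * Real.pi * ((n * a / f : ℝ) : ℂ) * Complex.I)‖ =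
        ‖∑ M ∈ range N, (D M : ℂ) * ee (M * a / f)‖ := by
    intro f a
    rw [sum_Icc_one]
    have h1 : ∀ M ∈ range N, (D (M + 1 - 1) : ℂ) *
        Complex.exp (2 * Real.pi * (((M + 1 : ℕ) * a / f : ℝ) : ℂ) * Complex.I) =
          ee (a / f) * ((D M : ℂ) * ee (M * a / f)) := by
      intro M _
      rw [Nat.add_sub_cancel]
      have h2 : Complex.exp (2 * Real.pi * (((M + 1 : ℕ) * a / f : ℝ) : ℂ) * Complex.I) =
          ee (a / f) * ee (M * a / f) := by
        rw [← ee_add]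
        unfold ee
        congr 1
        push_cast
        ring
      rw [h2]
      ring
    rw [Finset.sum_congr rfl h1, ← Finset.mul_sum, norm_mul, norm_ee, one_mul]
  simp only [hin]
  have hsub : PQ Q ⊆ Icc 1 Q := by
    intro q hq
    obtain ⟨-, h5, hQ, -⟩ := PQ_prop hq
    rw [mem_Icc]
    omega
  refine le_trans ?_ (Finset.sum_le_sum_of_subset_of_nonneg hsub fun f _ _ =>
    Finset.sum_nonneg fun a _ => sq_nonneg _)
  refine Finset.sum_le_sum fun q hq => ?_
  obtain ⟨hp, h5, hQ, h6⟩ := PQ_prop hq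
  have hq0 : 0 < q := hp.pos
  have hqR : (0 : ℝ) < q := by exact_mod_cast hq0
  have e1 : ∑ h ∈ range q, (q : ℝ) * (Zh D N q h - T / q) ^ 2 =
      q * ∑ h ∈ range q, Zh D N q h ^ 2 - T ^ 2 := by
    have h1 : ∀ h ∈ range q, (q : ℝ) * (Zh D N q h - T / q) ^ 2 =
        q * Zh D N q h ^ 2 - 2 * T * Zh D N q h + T ^ 2 / q := by
      intro h _
      field_simp
      ring
    rw [Finset.sum_congr rfl h1, Finset.sum_add_distrib, Finset.sum_sub_distrib,
      ← Finset.mul_sum, ← Finset.mul_sum, sum_Zh D N q hq0, ← hT, Finset.sum_const, card_range,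
      nsmul_eq_mul]
    field_simp
    ring
  have e2 : range q = insert 0 (Ioo 0 q) := by
    ext x
    simp only [mem_range, mem_insert, mem_Ioo]
    omega
  have e3 := pars D N q hq0
  rw [e2, Finset.sum_insert (by simp), ← e2] at e3
  have e4 : ‖∑ M ∈ range N, (D M : ℂ) * ee (M * (0 : ℕ) / q)‖ ^ 2 = T ^ 2 := by
    have : ∀ M ∈ range N, (D M : ℂ) * ee (M * (0 : ℕ) / q) = (D M : ℂ) := by
      intro M _
      simp [ee_zero]
    rw [Finset.sum_congr rfl this, ← Complex.ofReal_sum, Complex.norm_real, Real.norm_eq_abs,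
      sq_abs]
  rw [e4] at e3
  rw [e1]
  have e5 : ∑ a ∈ Ioo 0 q, ‖∑ M ∈ range N, (D M : ℂ) * ee (M * a / q)‖ ^ 2 ≤
      ∑ a ∈ (range q).filter (fun a => a.Coprime q),
        ‖∑ M ∈ range N, (D M : ℂ) * ee (M * a / q)‖ ^ 2 := by
    refine Finset.sum_le_sum_of_subset_of_nonneg ?_ fun a _ _ => sq_nonneg _
    intro a ha
    rw [mem_Ioo] at ha
    rw [mem_filter, mem_range]
    refine ⟨ha.2, ?_⟩
    exact (Nat.coprime_of_lt_prime ha.1.ne' ha.2 hp).symm
  linarith

theorem t_VAR (hl : S_LS) (hm : S_MER) : S_VAR := by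
  obtain ⟨C, hC, hMer⟩ := hm
  have hlog2 : 0 < Real.log 2 := Real.log_pos (by norm_num)
  refine ⟨6 * (1 + C / Real.log 2), by positivity, ?_⟩
  intro e N J Q hJ hQ
  set D : ℕ → ℝ := fun M => ∑ q ∈ PQ Q, Real.log q * dl e J q M with hD
  set V : ℝ := ∑ M ∈ range N, D M ^ 2 with hV
  have hV0 : 0 ≤ V := Finset.sum_nonneg fun M _ => sq_nonneg _
  set T : ℝ := ∑ M ∈ range N, D M with hT
  have hgoal : ∑ M ∈ range N,
      (∑ q ∈ PQ Q, Real.log q * ((cnt e J q M : ℝ) - J / q)) ^ 2 = V := rfl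
  rw [hgoal]
  have hlogQ : 0 < Real.log Q := Real.log_pos (by exact_mod_cast hQ)
  have hlog2Q : Real.log 2 ≤ Real.log Q := Real.log_le_log (by norm_num) (by exact_mod_cast hQ)
  -- V as a bilinear sum
  have hA : ∀ q ∈ PQ Q, ∑ M ∈ range N, D M * dl e J q M =
      ∑ h ∈ range q, (Zh D N q h - T / q) * dl e J q h := by
    intro q hq
    obtain ⟨hp, h5, hQ', h6⟩ := PQ_prop hq
    have hq0 : 0 < q := hp.pos
    have h1 : ∑ h ∈ range q, (Zh D N q h - T / q) * dl e J q h =
        ∑ h ∈ range q, Zh D N q h * dl e J q h := by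
      simp only [sub_mul]
      rw [Finset.sum_sub_distrib, ← Finset.mul_sum, dl_sum e J q hq0 h6, mul_zero, sub_zero]
    rw [h1]
    unfold Zh
    simp only [Finset.sum_mul]
    rw [Finset.sum_comm]
    refine Finset.sum_congr rfl fun M _ => ?_
    rw [Finset.sum_eq_single (M % q)]
    · rw [if_pos rfl]
      unfold dl
      rw [← cnt_mod]
    · intro h _ hne
      rw [if_neg (fun hh => hne hh.symm), zero_mul]
    · intro hh
      exact absurd (mem_range.mpr (Nat.mod_lt _ hq0)) hh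
  have hVA : V = ∑ q ∈ PQ Q, ∑ h ∈ range q,
      (Real.sqrt q * (Zh D N q h - T / q)) * (Real.log q / Real.sqrt q * dl e J q h) := by
    have h1 : V = ∑ q ∈ PQ Q, Real.log q * ∑ M ∈ range N, D M * dl e J q M := by
      rw [hV]
      simp only [Finset.mul_sum]
      rw [Finset.sum_comm]
      refine Finset.sum_congr rfl fun M _ => ?_
      rw [sq]
      nth_rewrite 2 [hD]
      simp only
      rw [Finset.mul_sum]
      refine Finset.sum_congr rfl fun q _ => ?_
      ring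
    rw [h1]
    refine Finset.sum_congr rfl fun q hq => ?_
    obtain ⟨hp, h5, hQ', h6⟩ := PQ_prop hq
    have hqR : (0 : ℝ) < q := by exact_mod_cast hp.pos
    have hsq : Real.sqrt q ≠ 0 := (Real.sqrt_pos.mpr hqR).ne'
    rw [hA q hq, Finset.mul_sum]
    refine Finset.sum_congr rfl fun h _ => ?_
    field_simp
  -- Cauchy-Schwarz
  have hCS : V ^ 2 ≤
      (∑ q ∈ PQ Q, ∑ h ∈ range q, (q : ℝ) * (Zh D N q h - T / q) ^ 2) *
        ∑ q ∈ PQ Q, ∑ h ∈ range q, Real.log q ^ 2 / q * dl e J q h ^ 2 := by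
    have h1 := Finset.sum_mul_sq_le_sq_mul_sq ((PQ Q).sigma fun q => range q)
      (fun x : (_ : ℕ) × ℕ => Real.sqrt x.1 * (Zh D N x.1 x.2 - T / x.1))
      (fun x : (_ : ℕ) × ℕ => Real.log x.1 / Real.sqrt x.1 * dl e J x.1 x.2)
    rw [Finset.sum_sigma, Finset.sum_sigma, Finset.sum_sigma] at h1
    simp only at h1
    rw [← hVA] at h1
    refine h1.trans (le_of_eq ?_)
    congr 1
    · refine Finset.sum_congr rfl fun q _ => Finset.sum_congr rfl fun h _ => ?_
      rw [mul_pow, Real.sq_sqrt (by positivity)]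
    · refine Finset.sum_congr rfl fun q _ => Finset.sum_congr rfl fun h _ => ?_
      rw [mul_pow, div_pow, Real.sq_sqrt (by positivity)]
  have hF1 := ls_bound hl D N Q
  rw [← hT, ← hV] at hF1
  -- second factor
  have hF2 : ∑ q ∈ PQ Q, ∑ h ∈ range q, Real.log q ^ 2 / q * dl e J q h ^ 2 ≤
      J * Real.log Q * (Real.log Q + C) := by
    have h1 : ∀ q ∈ PQ Q, ∑ h ∈ range q, Real.log q ^ 2 / q * dl e J q h ^ 2 ≤
        J * Real.log Q * (Real.log q / q) := by
      intro q hq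
      obtain ⟨hp, h5, hQ', h6⟩ := PQ_prop hq
      have hqR : (0 : ℝ) < q := by exact_mod_cast hp.pos
      have hlq : 0 ≤ Real.log q := Real.log_natCast_nonneg q
      have hlqQ : Real.log q ≤ Real.log Q := Real.log_le_log hqR (by exact_mod_cast hQ')
      rw [← Finset.mul_sum]
      calc Real.log q ^ 2 / q * ∑ h ∈ range q, dl e J q h ^ 2 ≤ Real.log q ^ 2 / q * J :=
            mul_le_mul_of_nonneg_left (dl_sq e J q hp.pos h6) (by positivity)
        _ = J * Real.log q * (Real.log q / q) := by ring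
        _ ≤ J * Real.log Q * (Real.log q / q) := by
          refine mul_le_mul_of_nonneg_right ?_ (by positivity)
          exact mul_le_mul_of_nonneg_left hlqQ (by positivity)
    refine (Finset.sum_le_sum h1).trans ?_
    rw [← Finset.mul_sum]
    refine mul_le_mul_of_nonneg_left ?_ (by positivity)
    have h2 : ∑ q ∈ PQ Q, Real.log q / q ≤ ∑ p ∈ (Icc 1 Q).filter Nat.Prime, Real.log p / p := by
      refine Finset.sum_le_sum_of_subset_of_nonneg ?_ fun p _ _ =>
        div_nonneg (Real.log_natCast_nonneg p) (by positivity)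
      intro q hq
      obtain ⟨hp, h5, hQ', h6⟩ := PQ_prop hq
      rw [mem_filter, mem_Icc]
      exact ⟨⟨by omega, hQ'⟩, hp⟩
    have h3 := (abs_le.mp (hMer Q (by omega))).2
    linarith
  have hF20 : 0 ≤ (J : ℝ) * Real.log Q * (Real.log Q + C) := by positivity
  have hfin : V ^ 2 ≤ (6 * (N + (Q : ℝ) ^ 2) * V) * (J * Real.log Q * (Real.log Q + C)) := by
    refine hCS.trans (mul_le_mul hF1 hF2 ?_ ?_)
    · refine Finset.sum_nonneg fun q _ => Finset.sum_nonneg fun h _ => ?_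
      positivity
    · positivity
  have hV1 : V ≤ 6 * (N + (Q : ℝ) ^ 2) * (J * Real.log Q * (Real.log Q + C)) := by
    rcases hV0.eq_or_lt with h | h
    · rw [← h]
      positivity
    · have h4 : V * V ≤ V * (6 * (N + (Q : ℝ) ^ 2) * (J * Real.log Q * (Real.log Q + C))) := by
        calc V * V = V ^ 2 := by ring
          _ ≤ _ := hfin
          _ = _ := by ring
      exact le_of_mul_le_mul_left h4 h
  refine hV1.trans ?_
  have h5 : Real.log Q + C ≤ (1 + C / Real.log 2) * Real.log Q := by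
    have : C ≤ C / Real.log 2 * Real.log Q := by
      rw [div_mul_eq_mul_div, le_div_iff₀ hlog2]
      exact mul_le_mul_of_nonneg_left hlog2Q hC.le
    linarith
  calc 6 * (N + (Q : ℝ) ^ 2) * (J * Real.log Q * (Real.log Q + C))
      ≤ 6 * (N + (Q : ℝ) ^ 2) * (J * Real.log Q * ((1 + C / Real.log 2) * Real.log Q)) := by
        gcongr
    _ = 6 * (1 + C / Real.log 2) * (N + (Q : ℝ) ^ 2) * J * Real.log Q ^ 2 := by ring

end Pool.Agent.Y980.SF
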