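import Pool.Agent.Y859.SF.Stm

/-!
Project SF (helper859), helper980: counting the multiples of `v` among `6 k + e`.
-/

set_option autoImplicit false

namespace Pool.Agent.Y980.SF

open Finset Pool.Agent.Y859.SF

lemma modEq_of_dvd {v e k k' : ℕ} (h2 : Nat.Coprime v 6) (h : v ∣ 6 * k + e)
    (h' : v ∣ 6 * k' + e) : k ≡ k' [MOD v] := by
  have h1 : 6 * k + e ≡ 6 * k' + e [MOD v] :=
    (Nat.modEq_zero_iff_dvd.mpr h).trans (Nat.modEq_zero_iff_dvd.mpr h').symm
  have h3 : 6 * k ≡ 6 * k' [MOD v] := Nat.ModEq.add_right_cancel' e h1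
  exact Nat.ModEq.cancel_left_of_coprime h2 h3

lemma dvd_of_modEq {v e k k' : ℕ} (h : v ∣ 6 * k + e) (hk : k ≡ k' [MOD v]) :
    v ∣ 6 * k' + e := by
  have h1 : 6 * k + e ≡ 6 * k' + e [MOD v] := (hk.mul_left 6).add_right e
  exact (Nat.modEq_zero_iff_dvd.mp (h1.symm.trans (Nat.modEq_zero_iff_dvd.mpr h)))

lemma cnt_le (e J v M : ℕ) (hv : 0 < v) (h2 : Nat.Coprime v 6) :
    (cnt e J v M : ℝ) ≤ (J : ℝ) / v + 1 := by
  unfold cnt
  rcases ((Ioc M (M + J)).filter (fun k => v ∣ 6 * k + e)).eq_empty_or_nonempty with h | ⟨k0, hk0⟩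
  · rw [h]
    simp
    positivity
  · have hk0' := (mem_filter.mp hk0).2
    have hsub : (Ioc M (M + J)).filter (fun k => v ∣ 6 * k + e) ⊆
        (Ioc M (M + J)).filter (fun k => k ≡ k0 [MOD v]) := by
      intro k hk
      rw [mem_filter] at hk ⊢
      exact ⟨hk.1, modEq_of_dvd h2 hk.2 hk0'⟩
    have h4 := card_le_card hsub
    have h5 := Nat.Ioc_filter_modEq_card M (M + J) hv k0
    have hvq : (0 : ℚ) < v := by exact_mod_cast hv
    have key : ∀ x y : ℚ, x - y = (J : ℚ) / v →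
        ((max (⌊x⌋ - ⌊y⌋) 0 : ℤ) : ℚ) ≤ (J : ℚ) / v + 1 := by
      intro x y hxy
      have hJ : (0 : ℚ) ≤ (J : ℚ) / v := by positivity
      have a1 := Int.floor_le x
      have a2 := Int.lt_floor_add_one y
      rcases max_choice (⌊x⌋ - ⌊y⌋) 0 with h | h
      · rw [h]
        push_cast
        linarith
      · rw [h]
        push_cast
        linarith
    have h6 : ((((Ioc M (M + J)).filter (fun k => k ≡ k0 [MOD v])).card : ℤ) : ℚ) ≤
        (J : ℚ) / v + 1 := by
      rw [h5]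
      refine key _ _ ?_
      push_cast
      field_simp
      ring
    have h7 : ((((Ioc M (M + J)).filter (fun k => k ≡ k0 [MOD v])).card : ℕ) : ℝ) ≤
        (J : ℝ) / v + 1 := by
      have h8 := (Rat.cast_le (K := ℝ)).mpr h6
      push_cast at h8
      exact h8
    refine le_trans ?_ h7
    exact_mod_cast h4

end Pool.Agent.Y980.SF
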