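import Pool.Agent.Y980.SF.Cnt

/-!
Project SF (helper859), part WIN (helper980): the window of one representation.
-/

set_option autoImplicit false

namespace Pool.Agent.Y980.SF

open Finset Pool.Agent.Y859.SF

open scoped Classical in
lemma win_part (e J M v : ℕ) (z : ℝ) (hv : 5 ≤ v) (h6 : Nat.Coprime v 6) :
    (((((big e J M z).image fun k => 6 * k + e).filter fun g => v ∣ g).card : ℕ) : ℝ) ≤
      (J : ℝ) / 5 + 1 := by
  have h1 : (((big e J M z).image fun k => 6 * k + e).filter fun g => v ∣ g).card ≤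
      cnt e J v M := by
    unfold cnt
    have hsub : (((big e J M z).image fun k => 6 * k + e).filter fun g => v ∣ g) ⊆
        ((Ioc M (M + J)).filter (fun k => v ∣ 6 * k + e)).image fun k => 6 * k + e := by
      intro g hg
      rw [mem_filter, mem_image] at hg
      obtain ⟨⟨k, hk, rfl⟩, hd⟩ := hg
      rw [mem_image]
      refine ⟨k, ?_, rfl⟩
      rw [mem_filter]
      unfold big at hk
      exact ⟨(mem_filter.mp hk).1, hd⟩
    exact (card_le_card hsub).trans card_image_le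
  have h2 := cnt_le e J v M (by omega) h6
  have h3 : (J : ℝ) / v ≤ (J : ℝ) / 5 := by
    have h5 : (5 : ℝ) ≤ v := by exact_mod_cast hv
    gcongr
  have h4 : (((((big e J M z).image fun k => 6 * k + e).filter fun g => v ∣ g).card : ℕ) : ℝ) ≤
      (cnt e J v M : ℝ) := by exact_mod_cast h1
  linarith

open scoped Classical in
theorem t_WIN (hf : S_FRA) (hr : S_REPF) : S_WIN := by
  intro m b y y' J M z Δ hrep hz hmz ht hs hb hm hΔ
  have hrep' := hrep
  obtain ⟨hy1, hy2, hbm, -⟩ := hrep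
  set G1 := (big 1 J M z).image fun k => 6 * k + 1 with hG1
  set G5 := (big 5 J M z).image fun k => 6 * k + 5 with hG5
  set G := G1 ∪ G5 with hG
  have hc1 : G1.card = (big 1 J M z).card :=
    card_image_of_injective _ fun a b h => by simpa using h
  have hc5 : G5.card = (big 5 J M z).card :=
    card_image_of_injective _ fun a b h => by simpa using h
  have hdisj : Disjoint G1 G5 := by
    rw [Finset.disjoint_left]
    intro g h1 h5
    rw [hG1, mem_image] at h1
    rw [hG5, mem_image] at h5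
    obtain ⟨k, -, rfl⟩ := h1
    obtain ⟨k', -, h⟩ := h5
    omega
  have hcG : (G.card : ℝ) = ((big 1 J M z).card : ℝ) + ((big 5 J M z).card : ℝ) := by
    rw [hG, card_union_of_disjoint hdisj, hc1, hc5]
    push_cast
    rfl
  have hmem : ∀ g ∈ G, 6 * M < g ∧ g ≤ 6 * M + (6 * J + 6) ∧ g < m ∧ Nat.Coprime 6 g ∧
      ∃ P : ℕ, P.Prime ∧ z < P ∧ P ∣ g := by
    intro g hg
    rw [hG, mem_union] at hg
    have : ∃ k e, k ∈ big e J M z ∧ (e = 1 ∨ e = 5) ∧ g = 6 * k + e := by
      rcases hg with hg | hg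
      · rw [hG1, mem_image] at hg
        obtain ⟨k, hk, rfl⟩ := hg
        exact ⟨k, 1, hk, Or.inl rfl, rfl⟩
      · rw [hG5, mem_image] at hg
        obtain ⟨k, hk, rfl⟩ := hg
        exact ⟨k, 5, hk, Or.inr rfl, rfl⟩
    obtain ⟨k, e, hk, he, rfl⟩ := this
    unfold big at hk
    rw [mem_filter, mem_Ioc] at hk
    obtain ⟨⟨hk1, hk2⟩, hP⟩ := hk
    refine ⟨by omega, by omega, by omega, ?_, hP⟩
    have hco : Nat.Coprime 6 e := by rcases he with rfl | rfl <;> norm_num
    rw [Nat.coprime_iff_gcd_eq_one] at hco ⊢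
    rw [Nat.gcd_rec, Nat.mul_add_mod, ← Nat.gcd_rec]
    exact hco
  have hchoose : ∀ g : ℕ, ∃ φ : ℚ, g ∈ G → 0 < φ ∧ φ < 1 ∧ φ.den ∣ g ∧ (φ.den : ℝ) * z ≤ m ∧
      (y' : ℚ) < φ * g ∧ φ * g ≤ y := by
    intro g
    by_cases hg : g ∈ G
    · obtain ⟨h1, h2, h3, -, P, hP, hzP, hPg⟩ := hmem g hg
      obtain ⟨φ, hφ⟩ := hr m b y y' z hrep' hz hmz ht hs g P (by omega) h3.le
        hP hzP hPg
      exact ⟨φ, fun _ => hφ⟩
    · exact ⟨0, fun h => absurd h hg⟩
  choose φ hφ using hchoose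
  have hm0 : (0 : ℝ) < m := by
    have : 0 < m := by omega
    exact_mod_cast this
  have hΔ0 : 0 ≤ Δ := by
    rw [hΔ]
    positivity
  set K : ℕ := ⌊(m : ℝ) / z⌋₊ with hK
  have hKle : (K : ℝ) ≤ (m : ℝ) / z := Nat.floor_le (by positivity)
  -- distances
  have hdist1 : ∀ g ∈ G, ∀ g' ∈ G, ((φ g : ℚ) : ℝ) - ((φ g' : ℚ) : ℝ) ≤ Δ := by
    intro g hg g' hg'
    obtain ⟨a1, a2, a3, -, -⟩ := hmem g hg
    obtain ⟨a1', a2', a3', -, -⟩ := hmem g' hg'
    obtain ⟨b1, b2, -, -, b5, b6⟩ := hφ g hg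
    obtain ⟨b1', b2', -, -, b5', b6'⟩ := hφ g' hg'
    have hgpos : (0 : ℝ) < g := by
      have : 0 < g := by omega
      exact_mod_cast this
    have hgpos' : (0 : ℝ) < g' := by
      have : 0 < g' := by omega
      exact_mod_cast this
    have c6 : ((φ g : ℚ) : ℝ) * g ≤ y := by exact_mod_cast b6
    have c5' : (y' : ℝ) < ((φ g' : ℚ) : ℝ) * g' := by exact_mod_cast b5'
    have c1 : (0 : ℝ) < ((φ g : ℚ) : ℝ) := by exact_mod_cast b1
    have hypos : (0 : ℝ) < y := lt_of_lt_of_le (mul_pos c1 hgpos) c6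
    have hyn : 0 < y := by exact_mod_cast hypos
    have hbpos : (0 : ℝ) < b := by
      have : 0 < b := by omega
      exact_mod_cast this
    have d1 : ((φ g : ℚ) : ℝ) ≤ y / b := by
      rw [le_div_iff₀ hbpos]
      refine le_trans ?_ c6
      refine mul_le_mul_of_nonneg_left ?_ c1.le
      have : b ≤ g := by omega
      exact_mod_cast this
    have d2 : (y' : ℝ) / m ≤ ((φ g' : ℚ) : ℝ) := by
      rw [div_le_iff₀ hm0]
      refine le_trans c5'.le ?_
      have c1' : (0 : ℝ) < ((φ g' : ℚ) : ℝ) := by exact_mod_cast b1'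
      refine mul_le_mul_of_nonneg_left ?_ c1'.le
      exact_mod_cast a3'.le
    have e1 : ((m - b : ℕ) : ℝ) = (m : ℝ) - b := by
      rw [Nat.cast_sub hbm.le]
    have e2 : ((y - y' : ℕ) : ℝ) = (y : ℝ) - y' := by
      rw [Nat.cast_sub hy1]
    have hyb : (y : ℝ) ≤ b := by exact_mod_cast hy2
    have d3 : (y : ℝ) / b - y' / m ≤ Δ := by
      rw [hΔ, e1, e2, div_sub_div _ _ hbpos.ne' hm0.ne', div_le_div_iff₀ (by positivity) hm0]
      have hbm' : (0 : ℝ) ≤ (m : ℝ) - b := by
        have : (b : ℝ) ≤ m := by exact_mod_cast hbm.le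
        linarith
      have h7 : (y : ℝ) * ((m : ℝ) - b) ≤ b * ((m : ℝ) - b) :=
        mul_le_mul_of_nonneg_right hyb hbm'
      have h8 : (y : ℝ) * m - b * y' ≤ b * ((m : ℝ) - b + (y - y')) := by linarith
      calc ((y : ℝ) * m - b * y') * m ≤ (b * ((m : ℝ) - b + (y - y'))) * m :=
            mul_le_mul_of_nonneg_right h8 hm0.le
        _ = ((m : ℝ) - b + (y - y')) * (b * m) := by ring
    linarith
  have hdist : ∀ g ∈ G, ∀ g' ∈ G, |((φ g : ℚ) : ℝ) - ((φ g' : ℚ) : ℝ)| ≤ Δ := by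
    intro g hg g' hg'
    rw [abs_le]
    have h1 := hdist1 g hg g' hg'
    have h2 := hdist1 g' hg' g hg
    constructor <;> linarith
  obtain ⟨v, hv2, hv3, hv4⟩ := hf G φ (6 * M) (6 * J + 6) K Δ hΔ0 (by
    intro g hg
    obtain ⟨a1, a2, a3, -, -⟩ := hmem g hg
    obtain ⟨b1, b2, b3, b4, -, -⟩ := hφ g hg
    refine ⟨a1, a2, b1, b2, b3, ?_⟩
    rw [hK]
    refine Nat.le_floor ?_
    rw [le_div_iff₀ hz]
    exact b4) hdist
  have hsplit : G.card = (G.filter fun g => v ∣ g).card + (G.filter fun g => ¬ v ∣ g).card :=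
    (card_filter_add_card_filter_not _).symm
  have hmain : ((G.filter fun g => v ∣ g).card : ℝ) ≤ 2 * ((J : ℝ) / 5 + 1) := by
    by_cases h6 : Nat.Coprime v 6
    · have hv5 : 5 ≤ v := by
        by_contra hlt
        push Not at hlt
        interval_cases v
        · exact absurd h6 (by decide)
        · exact absurd h6 (by decide)
        · exact absurd h6 (by decide)
      have h1 : G.filter (fun g => v ∣ g) = G1.filter (fun g => v ∣ g) ∪
          G5.filter (fun g => v ∣ g) := by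
        rw [hG, filter_union]
      rw [h1]
      have h2 : (((G1.filter (fun g => v ∣ g) ∪ G5.filter (fun g => v ∣ g)).card : ℕ) : ℝ) ≤
          ((G1.filter (fun g => v ∣ g)).card : ℝ) + ((G5.filter (fun g => v ∣ g)).card : ℝ) := by
        exact_mod_cast card_union_le _ _
      have h3 := win_part 1 J M v z hv5 h6
      have h5 := win_part 5 J M v z hv5 h6
      rw [← hG1] at h3
      rw [← hG5] at h5
      linarith
    · have h1 : G.filter (fun g => v ∣ g) = ∅ := by
        rw [filter_eq_empty_iff]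
        intro g hg hvg
        obtain ⟨-, -, -, hcop, -⟩ := hmem g hg
        exact h6 (Nat.Coprime.coprime_dvd_left hvg hcop.symm)
      rw [h1]
      simp
      positivity
  have hR : (G.card : ℝ) = ((G.filter fun g => v ∣ g).card : ℝ) +
      ((G.filter fun g => ¬ v ∣ g).card : ℝ) := by exact_mod_cast hsplit
  have hK2 : (K : ℝ) ^ 2 * Δ ≤ ((m : ℝ) / z) ^ 2 * Δ :=
    mul_le_mul_of_nonneg_right (pow_le_pow_left₀ (by positivity) hKle 2) hΔ0
  rw [← hcG]
  constructor
  · have hsq : 0 ≤ Real.sqrt Δ := Real.sqrt_nonneg _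
    have h1 : ((K : ℝ) ^ 2 * Δ + 1) * (((6 * J + 6 : ℕ) : ℝ) * Real.sqrt Δ + 1) ≤
        (((m : ℝ) / z) ^ 2 * Δ + 1) * ((6 * (J : ℝ) + 6) * Real.sqrt Δ + 1) := by
      push_cast
      refine mul_le_mul_of_nonneg_right (by linarith) (by positivity)
    linarith
  · intro hlt
    have h1 : G.filter (fun g => ¬ v ∣ g) = ∅ := by
      rw [filter_eq_empty_iff]
      intro g hg hcon
      exact hcon (hv4 (lt_of_le_of_lt hK2 hlt) g hg)
    rw [hR, h1]
    simpa using hmain

end Pool.Agent.Y980.SF
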